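import Pool.Agent.H88.TU.Case2
import Pool.Agent.H10.TU.LvmA
import Pool.Agent.H10.TU.LvmI
import Pool.Agent.H10.TU.LvmS
import Pool.Agent.H10.TU.Idx

/-!
# Project TU, case 2: a degenerate minimum makes a higher level wrong
-/

set_option autoImplicit false

open Module QuadraticForm Filter Topology
open Pool.Agent.H47.QG (Pt action flw oseq Gen ind hess Zn MeanIdx)
open Pool.Agent.H47.ST
open Pool.Agent.H10.TU (NegFam SDe)

namespace Pool.Agent.H4.TU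

variable {n : ℕ}

/-- the critical points of the action are isolated -/
theorem crit_iso {S : ℕ → Pt n → ℝ} {f : ℕ → Pt n → Pt n} (hS : ∀ j, Gen (S j) (f j))
    {N : ℕ} [NeZero N] (W : Finset (Pt n))
    (hW : ∀ w, flw f N w = w ↔ ∃ w' ∈ W, w - w' ∈ Zn n) {w : Pt n} (hw : flw f N w = w) :
    ∃ r > 0, ∀ y, ‖y - zw f N w‖ ≤ r → fderiv ℝ (fS S N) y = 0 → y = zw f N w := by
  classical
  have hcr := GrowA_crit hS N W hW (W.image (zw f N)) (fun z => Finset.mem_image)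
  obtain ⟨Z', hZ', hZd⟩ := Sep_reps (Lc n N) (W.image (zw f N))
  obtain ⟨r, hd, hr⟩ := ((Disj_small (Lc n N) Z' hZd).and self_mem_nhdsWithin).exists
  have hr0 : 0 < r := hr
  have hz := Pool.Agent.H88.TU.zw_crit hS hw
  refine ⟨r, hr0, fun y hy hy0 => ?_⟩
  obtain ⟨z1, hz1, l1, hl1, e1⟩ := (hZ' _).2 ((hcr _).1 hz)
  obtain ⟨z2, hz2, l2, hl2, e2⟩ := (hZ' _).2 ((hcr _).1 hy0)
  -- translate by `l1`
  have h1 : y - rl l1 = z2 + rl (l2 - l1) := by
    rw [e2, sub_eq_add_neg l2 l1, Glue_rl_add]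
    have h2 : rl (-l1) = - rl l1 := by
      have h3 := Glue_rl_add l1 (-l1)
      rw [add_neg_cancel, Sep_rl_zero] at h3
      exact (neg_eq_of_add_eq_zero_right h3.symm).symm
    rw [h2]
    abel
  have h2 := hd z2 hz2 z1 hz1 (l2 - l1) ((Lc n N).sub_mem hl2 hl1) (y - rl l1) (by
    rw [h1]
    exact Metric.mem_closedBall_self hr0.le) (by
    rw [Metric.mem_closedBall, dist_eq_norm]
    have h3 : y - rl l1 - z1 = y - zw f N w := by rw [e1]; abel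
    rw [h3]
    exact hy)
  have h3 : l2 = l1 := sub_eq_zero.1 h2.2
  rw [e2, e1, h2.1, h3]

/-- **Case 2**: a degenerate minimum gives a class in a low degree at a higher level. -/
theorem lvm_low {S : ℕ → Pt n → ℝ} {f : ℕ → Pt n → Pt n} (hS : ∀ j, Gen (S j) (f j))
    (hn : 0 < n) {N : ℕ} [NeZero N] (hper : ∀ j, S (j + N) = S j)
    (hfper : ∀ j, f (j + N) = f j) (W : Finset (Pt n))
    (hW : ∀ w, flw f N w = w ↔ ∃ w' ∈ W, w - w' ∈ Zn n) {w : Pt n} (hw : flw f N w = w)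
    (hM : MeanIdx S f N w 0) {e : Fin (n * (N - 1)) → (Iz n N → ℝ)}
    (he : NegFam (fS S N) (zw f N w) e) (hSD : SDe (fS S N) (zw f N w) e) :
    ∃ (m : ℕ) (_ : NeZero (m * N)), 2 ≤ m * N ∧
      Pool.Agent.H88.TU.Low S (m * N) (n * (m * N) - n - 1) := by
  have hN : 0 < N := Nat.pos_of_neZero N
  have hf := fS_smooth hS N
  have hz := Pool.Agent.H88.TU.zw_crit hS hw
  obtain ⟨hh, ρ₀, hL⟩ := Pool.Agent.H10.TU.level_one' hf hz (crit_iso hS W hW hw) he hSD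
  obtain ⟨k0, hk0, hlow⟩ := Pool.Agent.H10.TU.low_abs hL hf.continuous
    (Pool.Agent.H10.TU.X0 n N) (Pool.Agent.H10.TU.Y0 n N) ⟨0, hn⟩
  have hm0 : 2 * k0 ≠ 0 := by omega
  have hmN0 : 2 * k0 * N ≠ 0 := (Nat.mul_pos (by omega) hN).ne'
  have : NeZero (2 * k0) := ⟨hm0⟩
  have hK : NeZero (2 * k0 * N) := ⟨hmN0⟩
  obtain ⟨ck, hck1, hck2, hck3⟩ := Pool.Agent.H10.TU.chunks n (2 * k0) N
  have hwm : flw f (2 * k0 * N) w = w := Pool.Agent.H47.QG.IterA_flw_mul f hfper hw (2 * k0) 0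
  have hzm := Pool.Agent.H88.TU.zw_crit (K := 2 * k0 * N) hS hwm
  -- the index
  have hind : n * (2 * k0 * N) ≤ ind S f (2 * k0 * N) w + n := by
    obtain ⟨t, ht, hb⟩ := Pool.Agent.H93.TU.CaseA_mean hS hN hper hfper w hw
    have h0 := Pool.Agent.H93.TU.CaseA_unique ht hM
    subst h0
    have h1 := (abs_le.1 (hb (2 * k0) (by omega))).1
    have h2 : ((n * (2 * k0 * N) : ℕ) : ℝ) ≤ ((ind S f (2 * k0 * N) w + n : ℕ) : ℝ) := by
      push_cast at h1 ⊢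
      linarith
    exact_mod_cast h2
  obtain ⟨Kl, hKl, c, hc, r, hr, hneg⟩ := Pool.Agent.H10.TU.neg_sub (fS_smooth hS (2 * k0 * N))
    hzm (b := n * (2 * k0 * N) - n) (by rw [fS_sigNeg hS]; omega)
  have hbeq : 2 * k0 * (n * (N - 1)) + (2 * k0 - 1) * n = n * (2 * k0 * N) - n := by
    obtain ⟨N', rfl⟩ : ∃ N', N = N' + 1 := ⟨N - 1, by omega⟩
    obtain ⟨k', rfl⟩ : ∃ k', k0 = k' + 1 := ⟨k0 - 1, by omega⟩
    have e1 : N' + 1 - 1 = N' := by omega
    have e2 : 2 * (k' + 1) - 1 = 2 * k' + 1 := by omega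
    rw [e1, e2]
    apply Nat.eq_sub_of_add_eq
    ring
  have hdm := dom_Dm n (2 * k0 * N) one_pos 0 0
  have hlow' := hlow k0 (2 * k0) le_rfl rfl ck hck1 (fS S (2 * k0 * N))
    (fun y => hck2 S hper y) (zw f (2 * k0 * N) w) (hck3 f hfper w hw) Kl
    (by rw [hbeq]; exact hKl) c hc r hr hneg (Lc n (2 * k0 * N)) (qK n (2 * k0 * N))
    (QK n (2 * k0 * N)) (by simpa using hdm.q1.continuous)
    (by simpa using hdm.Q1.continuous) (by simpa using hdm.qp)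
    (by simpa using hdm.Qp)
  rw [hbeq] at hlow'
  refine ⟨2 * k0, hK, ?_, ?_⟩
  · nlinarith
  · obtain ⟨ε, hε, R₀, h1⟩ := hlow'
    exact ⟨ε, hε, R₀, h1⟩

end Pool.Agent.H4.TU
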