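import Pool.Agent.H4.TU.Case2
import Pool.Agent.H93.TU.CaseC
import Pool.Agent.H77.TU.Neg

/-!
# Project TU: some level has cohomology in a wrong degree
-/

set_option autoImplicit false

open Module QuadraticForm Filter Topology
open Pool.Agent.H47.QG (Pt action flw oseq Gen ind hess Zn MeanIdx)
open Pool.Agent.H47.ST
open Pool.Agent.H75.TH (Wrong)

namespace Pool.Agent.H4.TU

variable {n : ℕ}

/-- **Theorem U.** If the fixed points of all powers are finite in number modulo `ℤ^{2n}` then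
some power has cohomology in a wrong degree. -/
theorem exists_wrong {S : ℕ → Pt n → ℝ} {f : ℕ → Pt n → Pt n} (hS : ∀ j, Gen (S j) (f j))
    (hn : 0 < n) {N : ℕ} [NeZero N] (hper : ∀ j, S (j + N) = S j) (hfper : ∀ j, f (j + N) = f j)
    (hfin : ∀ m : ℕ, 0 < m → ∃ W : Finset (Pt n),
      (∀ w, flw f (m * N) w = w ↔ ∃ w' ∈ W, w - w' ∈ Zn n) ∧
      ∀ w ∈ W, ∀ w' ∈ W, w - w' ∈ Zn n → w = w') :
    ∃ (k : ℕ) (_ : NeZero (k * N)), Wrong S f (k * N) := by
  by_cases h : Wrong S f N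
  · have h1 : 1 * N = N := one_mul N
    have h2 : NeZero (1 * N) := ⟨by rw [h1]; exact NeZero.ne N⟩
    refine ⟨1, h2, ?_⟩
    have h3 : ∀ K, K = N → ∀ _ : NeZero K, Wrong S f K := by
      rintro K rfl _
      exact h
    exact h3 _ h1 h2
  · obtain ⟨W, hW, hWd⟩ := hfin 1 one_pos
    rw [one_mul] at hW
    obtain ⟨w, hw, hM, hind, hSD⟩ := Pool.Agent.H93.TU.case1 hS hper hfper W hW hWd h
    obtain ⟨e, he⟩ := Pool.Agent.H77.TU.exists_negFam (f := fS S N) (fS_smooth hS N) (zw f N w)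
      (d := n * (N - 1)) (by rw [fS_sigNeg hS N w, hind])
    obtain ⟨m, hm, h2, hlow⟩ := lvm_low hS hn hper hfper W hW hw hM he (hSD e he)
    exact ⟨m, hm, Pool.Agent.H88.TU.wrong_of_lows hS hn hper hfper hfin m h2 hlow⟩

end Pool.Agent.H4.TU
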